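import Mathlib

set_option autoImplicit false

namespace Pool.Agent.Results.MP_1bde1f_co.Yes

open Finset

def Routable (A : Finset (ℕ × ℕ)) (T X : Finset ℕ) : Prop :=
  ∃ R : Set (List ℕ),
    (∀ p ∈ R, p.Nodup ∧ p.IsChain (fun u v => (u, v) ∈ A) ∧ ∃ t ∈ T, p.getLast? = some t) ∧
    R.Pairwise List.Disjoint ∧ ∀ x ∈ X, ∃ p ∈ R, p.head? = some x

def StdRep (V : Finset ℕ) (A : Finset (ℕ × ℕ)) (T E : Finset ℕ) (I : Set (Finset ℕ)) : Prop :=
  A ⊆ V ×ˢ V ∧ E ⊆ V ∧ T ⊆ E ∧ (∀ a ∈ A, a.1 ∉ T) ∧ (∀ a ∈ A, a.2 ∉ E \ T) ∧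
    ∀ X, X ∈ I ↔ X ⊆ E ∧ Routable A T X

theorem mp {A : Finset (ℕ × ℕ)} {T X : Finset ℕ} (f : ℕ → ℕ) (hf : f.Injective)
    (h : Routable A T X) (h1 : ∀ t ∈ T, f t = t) (h2 : ∀ x ∈ X, f x = x) :
    Routable (A.image (Prod.map f f)) T X := by
  obtain ⟨R, a, b, c⟩ := h
  refine ⟨List.map f '' R, ?_, ?_, fun x hx => ?_⟩
  · rintro _ ⟨p, hp, rfl⟩
    obtain ⟨u, v, t, ht, w⟩ := a p hp
    exact ⟨u.map hf, List.isChain_map_of_isChain f (fun x y e => mem_image_of_mem _ e) v, t, ht,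
      by simp [w, h1 t ht]⟩
  · rintro _ ⟨p, hp, rfl⟩ _ ⟨q, hq, rfl⟩ n
    exact List.disjoint_map hf (b hp hq fun e => n (e ▸ rfl))
  · obtain ⟨p, hp, e⟩ := c x hx
    exact ⟨_, ⟨p, hp, rfl⟩, by simp [e, h2 x hx]⟩

theorem st {A : Finset (ℕ × ℕ)} {T X : Finset ℕ} (h : Routable A T X) {x : ℕ} (hx : x ∈ X) :
    x ∈ T ∨ ∃ y, (x, y) ∈ A := by
  obtain ⟨R, a, -, c⟩ := h
  obtain ⟨p, hp, e⟩ := c x hx
  obtain ⟨-, v, t, ht, w⟩ := a p hp
  rcases p with _ | ⟨y, _ | ⟨z, p⟩⟩ <;> simp at e w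
  · exact .inl (e ▸ w ▸ ht)
  · exact .inr ⟨z, e ▸ (List.isChain_cons_cons.1 v).1⟩

theorem mv {V T : Finset ℕ} {A : Finset (ℕ × ℕ)} {I : Set (Finset ℕ)} {n L : ℕ}
    (h : StdRep V A T (range n) I) (hL : n ≤ L) : ∃ B : Finset (ℕ × ℕ), B.card = A.card ∧
      StdRep (range (L + 2 * A.card)) B T (range L) I := by
  obtain ⟨h1, h2, h3, h4, h5, h6⟩ := h
  let W := (A.image Prod.fst ∪ A.image Prod.snd) \ range n
  have w : W.card ≤ 2 * A.card := (card_le_card sdiff_subset).trans ((card_union_le _ _).trans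
    (two_mul A.card ▸ add_le_add card_image_le card_image_le))
  obtain ⟨s, hs⟩ := Equiv.Perm.exists_extending_pair (Sum.elim (fun i : Fin n => i.1) fun x : W => x.1)
    (Sum.elim (fun i : Fin n => i.1) fun x : W => L + W.equivFin x)
    (Fin.val_injective.sumElim Subtype.val_injective fun a b => by
      have := mem_range.not.1 (mem_sdiff.1 b.2).2; omega)
    (Fin.val_injective.sumElim (fun a b e => W.equivFin.injective (Fin.ext (by simpa using e)))
      fun a b => by omega)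
  have s1 : ∀ x < n, s x = x := fun x hx => hs (.inl ⟨x, hx⟩)
  have s2 : ∀ x ∈ A.image Prod.fst ∪ A.image Prod.snd,
      x < n ∧ s x = x ∨ L ≤ s x ∧ s x < L + 2 * A.card := fun x hx => by
    by_cases z : x < n
    · exact .inl ⟨z, s1 x z⟩
    have := hs (.inr ⟨x, mem_sdiff.2 ⟨hx, mem_range.not.2 z⟩⟩)
    have := (W.equivFin ⟨x, mem_sdiff.2 ⟨hx, mem_range.not.2 z⟩⟩).2
    simp only [Sum.elim_inr] at *
    omega
  have s3 : ∀ a ∈ A, _ := fun a ha => And.intro (s2 a.1 (mem_union_left _ (mem_image_of_mem _ ha)))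
    (s2 a.2 (mem_union_right _ (mem_image_of_mem _ ha)))
  have t : ∀ t ∈ T, t < n := fun t ht => mem_range.1 (h3 ht)
  refine ⟨A.image (Prod.map s s), card_image_of_injective _ (s.injective.prodMap s.injective),
    fun a ha => ?_, by simp, h3.trans (by simpa), fun a ha => ?_, fun a ha => ?_, fun X => ?_⟩
  iterate 3
    obtain ⟨a, hb, rfl⟩ := mem_image.1 ha
    have := s3 a hb
    have := h4 a hb
    have := h5 a hb
    have := t (s a.1)
    simp only [mem_product, mem_range, mem_sdiff, Prod.map_fst, Prod.map_snd] at *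
    grind
  refine (h6 X).trans ⟨fun ⟨a, b⟩ => ⟨a.trans (by simpa), mp s s.injective b
    (fun x hx => s1 x (t x hx)) fun x hx => s1 x (mem_range.1 (a hx))⟩, fun ⟨a, b⟩ => ?_⟩
  have c : ∀ x ∈ X, x < n := fun x hx => by
    rcases st b hx with z | ⟨y, z⟩
    · exact t x z
    obtain ⟨u, hu, e⟩ := mem_image.1 z
    have := s3 u hu
    have := mem_range.1 (a hx)
    have := congrArg Prod.fst e
    simp only [Prod.map_fst] at *
    omega
  refine ⟨fun x hx => mem_range.2 (c x hx), ?_⟩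
  simpa [image_image, Prod.map_comp_map] using mp s.symm s.symm.injective b
    (fun x hx => s.symm_apply_eq.2 (s1 x (t x hx)).symm) fun x hx => s.symm_apply_eq.2 (s1 x (c x hx)).symm

theorem rs {V T : Finset ℕ} {A : Finset (ℕ × ℕ)} {I : Set (Finset ℕ)} {n L : ℕ}
    (h : StdRep V A T (range L) I) (hL : n ≤ L) (hI : ∀ X ∈ I, X ⊆ range n) :
    StdRep V A T (range n) I := by
  obtain ⟨h1, h2, h3, h4, h5, h6⟩ := h
  have r : range n ⊆ range L := by simpa
  refine ⟨h1, r.trans h2, fun t ht => hI {t} ((h6 _).2 ⟨by simpa using h3 ht, {[t]}, by simpa,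
    by simp, by simp⟩) (mem_singleton_self t), h4, fun a ha z => h5 a ha (sdiff_subset_sdiff r
    subset_rfl z), fun X => ⟨fun z => ⟨hI X z, ((h6 X).1 z).2⟩, fun z => (h6 X).2 ⟨z.1.trans r, z.2⟩⟩⟩

theorem dec {r e t : ℕ} {B : Finset (ℕ × ℕ)} (hB : B ⊆ Ico r (2 * r) ×ˢ range r) (he : r ≤ e)
    (ht : t < r) : Routable B (range r) (insert e ((range r).erase t)) ↔ (e, t) ∈ B := by
  have b : ∀ u v, (u, v) ∈ B → r ≤ u ∧ v < r := fun u v z => by
    have := hB z; simp at this; omega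
  refine ⟨fun ⟨R, a, d, c⟩ => ?_, fun z => ⟨insert [e, t] ((fun x => [x]) '' (range r).erase t),
    ?_, ?_, by simp; tauto⟩⟩
  · obtain ⟨p, hp, w⟩ := c e (mem_insert_self _ _)
    obtain ⟨-, v, u, hu, y⟩ := a p hp
    rcases p with _ | ⟨x, _ | ⟨z, p⟩⟩ <;> simp at w y hu
    · omega
    subst w
    have v := (List.isChain_cons_cons.1 v).1
    by_contra n
    obtain ⟨q, hq, w⟩ := c z (by have := b _ _ v; simp; grind)
    have := b _ _ v
    exact d hp hq (fun e => by subst e; simp at w; omega) (by simp) (List.mem_of_mem_head? w)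
  · rintro p (rfl | ⟨x, hx, rfl⟩) <;> simp_all
    omega
  · rintro p (rfl | ⟨x, hx, rfl⟩) q (rfl | ⟨y, hy, rfl⟩) n <;> simp_all <;> omega

theorem big (C : ℕ) : ∃ n m I, 0 < n ∧ C * n < m ∧
    IsLeast {k | ∃ V A T, StdRep V A T (range n) I ∧ A.card = k} m := by
  classical
  obtain ⟨D, hD⟩ : ∃ D, D = 4 * C + 2 := ⟨_, rfl⟩
  obtain ⟨j, hj⟩ : ∃ j, j = 4 * D + (2 * D * D + D + 2) := ⟨_, rfl⟩
  obtain ⟨r, a, b⟩ : ∃ r, D * r ≤ 2 ^ (D + 2 * j) ∧ j * j < r := ⟨2 ^ (2 * j),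
    pow_add 2 D _ ▸ Nat.mul_le_mul_right _ Nat.lt_two_pow_self.le, by
      rw [two_mul, pow_add]
      exact Nat.mul_lt_mul'' Nat.lt_two_pow_self Nat.lt_two_pow_self⟩
  let P := (Ico r (2 * r) ×ˢ range r).powerset
  let I := fun B : Finset (ℕ × ℕ) => {X | X ⊆ range (2 * r) ∧ Routable B (range r) X}
  have s : ∀ B ∈ P, StdRep (range (2 * r)) B (range r) (range (2 * r)) (I B) := fun B hB => by
    have : ∀ a ∈ B, _ := fun a ha => mem_product.1 (mem_powerset.1 hB ha)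
    refine ⟨fun a ha => ?_, subset_rfl, by simp; omega, fun a ha => ?_, fun a ha => ?_, fun _ => .rfl⟩ <;>
      have := this a ha <;> simp at * <;> omega
  have r0 : 0 < r := by omega
  by_contra! h
  have : ∀ B ∈ P, ∃ z ∈ (range (2 * r)).powerset ×ˢ (range (C * (2 * r) + 1)).biUnion fun k =>
      (range (D * r) ×ˢ range (D * r)).powersetCard k,
      ∀ X, X ∈ I B ↔ X ⊆ range (2 * r) ∧ Routable z.2 z.1 X := fun B hB => by
    have l := Nat.sInf_mem (s := {k | ∃ V A T, StdRep V A T (range (2 * r)) (I B) ∧ A.card = k})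
      ⟨_, _, _, _, s B hB, rfl⟩
    have m := not_lt.1 fun z => h _ _ _ (by omega) z ⟨l, fun _ => Nat.sInf_le⟩
    obtain ⟨V, A, T, a, e⟩ := l
    obtain ⟨A', b, c⟩ := mv a le_rfl
    refine ⟨(T, A'), mem_product.2 ⟨mem_powerset.2 c.2.2.1, mem_biUnion.2 ⟨A'.card, mem_range.2
      (by omega), mem_powersetCard.2 ⟨c.1.trans ?_, rfl⟩⟩⟩, c.2.2.2.2.2⟩
    have : range (2 * r + 2 * A.card) ⊆ range (D * r) := by
      rw [range_subset_range, e, hD]; nlinarith
    exact product_subset_product this this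
  choose! f f1 f2 using this
  have := card_le_card_of_injOn f f1 fun B hB B' hB' e => by
    have i : ∀ X, X ∈ I B ↔ X ∈ I B' := fun X => by rw [f2 B hB, f2 B' hB', e]
    have hB := mem_powerset.1 hB
    have hB' := mem_powerset.1 hB'
    ext ⟨u, t⟩
    by_cases z : (u, t) ∈ Ico r (2 * r) ×ˢ range r
    swap; · exact iff_of_false (fun y => z (hB y)) fun y => z (hB' y)
    simp only [mem_product, mem_Ico, mem_range] at z
    rw [← dec hB z.1.1 z.2, ← dec hB' z.1.1 z.2]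
    refine (and_congr_right_iff.1 (i _)) fun x => ?_
    simp; omega
  rw [card_product, card_powerset, card_powerset, card_product, Nat.card_Ico, card_range, card_range,
    show 2 * r - r = r by omega] at this
  replace this := this.trans (Nat.mul_le_mul_left _ (card_biUnion_le.trans (sum_le_card_nsmul _ _
    ((2 ^ (D + 2 * j) * 2 ^ (D + 2 * j)) ^ (C * (2 * r))) fun k hk => by
      rw [card_powersetCard, card_product, card_range]
      exact (Nat.choose_le_pow _ _).trans ((Nat.pow_le_pow_left (Nat.mul_le_mul a a) _).trans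
        (Nat.pow_le_pow_right (by positivity) (by simpa [Nat.lt_succ_iff] using hk))))))
  rw [card_range, smul_eq_mul] at this
  replace this := this.trans (Nat.mul_le_mul_left _ (Nat.mul_le_mul_right _ Nat.lt_two_pow_self))
  rw [← pow_add, ← pow_mul, ← pow_add, ← pow_add, Nat.pow_le_pow_iff_right one_lt_two] at this
  have c : r ≤ 2 + (C * 2 + (D + 2 * j + (D + 2 * j)) * (C * 2)) :=
    Nat.le_of_mul_le_mul_left (a := r) (by linarith) r0
  have d : 2 * D * D + D + 2 ≤ j * (2 * D * D + D + 2) := Nat.le_mul_of_pos_left _ (by omega)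
  have e : j * j = j * (4 * D + (2 * D * D + D + 2)) := by rw [← hj]
  have : C * 2 ≤ D := by omega
  have := Nat.mul_le_mul_left (D + 2 * j + (D + 2 * j)) this
  linarith

theorem result (a b : ℝ) (ha : 0 < a) (hab : a < b) :
    ∃ (E : Finset ℕ) (I : Set (Finset ℕ)) (m : ℕ), E.Nonempty ∧
      IsLeast {k | ∃ V A T, StdRep V A T E I ∧ A.card = k} m ∧
      a < (m : ℝ) / E.card ∧ (m : ℝ) / E.card < b := by
  obtain ⟨C, hC⟩ := exists_nat_gt (max b (a * b / (b - a)))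
  obtain ⟨n, m, I, n0, h, l⟩ := big C
  have hb := ha.trans hab
  have h : (C : ℝ) * n < m := by exact_mod_cast h
  have n1 : (1 : ℝ) ≤ n := by exact_mod_cast n0
  have c1 := (le_max_left _ _).trans_lt hC
  have c2 := (div_lt_iff₀ (sub_pos.2 hab)).1 ((le_max_right _ _).trans_lt hC)
  have f1 := Nat.lt_floor_add_one (m / b)
  have f2 := Nat.floor_le (show 0 ≤ (m : ℝ) / b by positivity)
  rw [div_lt_iff₀ hb] at f1
  rw [le_div_iff₀ hb] at f2
  have hL : n ≤ ⌊m / b⌋₊ + 1 := by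
    have : (n : ℝ) < ⌊m / b⌋₊ + 1 := by nlinarith
    exact_mod_cast this.le
  refine ⟨range (⌊m / b⌋₊ + 1), I, m, by simp, ?_, ?_, ?_⟩
  · obtain ⟨⟨V, A, T, s, e⟩, l⟩ := l
    obtain ⟨B, p, q⟩ := mv s hL
    exact ⟨⟨_, B, T, q, p.trans e⟩, fun k ⟨V', A', T', s', e'⟩ =>
      l ⟨V', A', T', rs s' hL fun X hX => ((s.2.2.2.2.2 X).1 hX).1, e'⟩⟩
  · rw [card_range, lt_div_iff₀ (by positivity)]
    push_cast
    have : (C : ℝ) < m := by nlinarith
    nlinarith
  · rw [card_range, div_lt_iff₀ (by positivity)]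
    push_cast
    linarith

end Pool.Agent.Results.MP_1bde1f_co.Yes
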